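import Pool.Agent.Work.MP_820bad_co.Final

set_option autoImplicit false

namespace Pool.Agent.Results.MP_820bad_co.Harmonic

/-- If the sums of the reciprocals of the in-degrees and of the out-degrees are at most `s` and at
least `K ≥ 16 k^2 s + 10 k` arcs leave every nonempty proper vertex set, then the arc set splits
into `k` strong spanning subdigraphs. -/
theorem result (k K : ℕ) (hk : 0 < k) (s : ℝ) (V : Type) [Fintype V] (D : Digraph V)
    (hin : ∑ v, (1 : ℝ) / ({u | u ≠ v ∧ D.Adj u v}.ncard : ℝ) ≤ s)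
    (hout : ∑ v, (1 : ℝ) / ({u | u ≠ v ∧ D.Adj v u}.ncard : ℝ) ≤ s)
    (hs : 16 * (k : ℝ) ^ 2 * s + 10 * k ≤ K)
    (hK : ∀ S : Set V, S.Nonempty → S ≠ Set.univ →
      K ≤ {p : V × V | p.1 ∈ S ∧ p.2 ∉ S ∧ D.Adj p.1 p.2}.ncard) :
    ∃ A : Fin k → V → V → Prop,
      (∀ u v, D.Adj u v ↔ ∃ i, A i u v) ∧
      (∀ i j u v, A i u v → A j u v → i = j) ∧
      (∀ i u v, Relation.ReflTransGen (A i) u v) :=
  Pool.Agent.Work.MP_820bad_co.final_harm D.Adj k K hk s hin hout hs hK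

end Pool.Agent.Results.MP_820bad_co.Harmonic
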