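import Pool.Agent.Work.MP_820bad_co.Final

set_option autoImplicit false

namespace Pool.Agent.Results.MP_820bad_co.Independence

/-- A digraph with independence number at most `a` in which at least `24 k^2 a + 8 k` arcs leave
every nonempty proper vertex set has its arc set split into `k` strong spanning subdigraphs. -/
theorem result (k a : ℕ) (hk : 0 < k) (V : Type) [Fintype V] (D : Digraph V)
    (ha : ∀ I : Set V, (∀ u ∈ I, ∀ v ∈ I, u ≠ v → ¬ D.Adj u v) → I.ncard ≤ a)
    (hK : ∀ S : Set V, S.Nonempty → S ≠ Set.univ →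
      24 * k ^ 2 * a + 8 * k ≤ {p : V × V | p.1 ∈ S ∧ p.2 ∉ S ∧ D.Adj p.1 p.2}.ncard) :
    ∃ A : Fin k → V → V → Prop,
      (∀ u v, D.Adj u v ↔ ∃ i, A i u v) ∧
      (∀ i j u v, A i u v → A j u v → i = j) ∧
      (∀ i u v, Relation.ReflTransGen (A i) u v) :=
  Pool.Agent.Work.MP_820bad_co.final_indep D.Adj k a hk ha hK

end Pool.Agent.Results.MP_820bad_co.Independence
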