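import Pool.Agent.Work.MP_820bad_co.LogFinal

set_option autoImplicit false

namespace Pool.Agent.Results.MP_820bad_co.LogBound

/-- If at least `K ≥ 6 k log (k n)` arcs leave every nonempty proper vertex set of a digraph on
`n` vertices, then its arc set splits into `k` strong spanning subdigraphs. -/
theorem result (k K : ℕ) (hk : 0 < k) (V : Type) [Fintype V] (D : Digraph V)
    (hlog : 6 * (k : ℝ) * Real.log (k * Fintype.card V) ≤ K)
    (hK : ∀ S : Set V, S.Nonempty → S ≠ Set.univ →
      K ≤ {p : V × V | p.1 ∈ S ∧ p.2 ∉ S ∧ D.Adj p.1 p.2}.ncard) :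
    ∃ A : Fin k → V → V → Prop,
      (∀ u v, D.Adj u v ↔ ∃ i, A i u v) ∧
      (∀ i j u v, A i u v → A j u v → i = j) ∧
      (∀ i u v, Relation.ReflTransGen (A i) u v) :=
  Pool.Agent.Work.MP_820bad_co.final_log D.Adj k K hk hlog hK

end Pool.Agent.Results.MP_820bad_co.LogBound
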